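import Pool.Agent.Helper41.KV.GoalsC

/-!
# Project KV, packet MCL1: closure properties of `MT`, `MP`, `LT`, `LP`
-/

namespace Pool.Agent.Helper93.KV.MCL1

open Real MeasureTheory
open scoped Pointwise
open Pool.Agent.Helper41.KV

/-! ### Jointly smooth functions -/

/-- Jointly smooth. -/
def Sm3 (Φ : F3) : Prop := ContDiff ℝ (⊤ : ℕ∞) (fun p : ℝ × ℝ × ℝ => Φ p.1 p.2.1 p.2.2)

theorem Sm3.dy {Φ : F3} (h : Sm3 Φ) (r l : ℝ) : Differentiable ℝ (fun y => Φ r l y) := by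
  have h1 : ContDiff ℝ (⊤ : ℕ∞) (fun y : ℝ => ((r, l, y) : ℝ × ℝ × ℝ)) :=
    contDiff_const.prodMk (contDiff_const.prodMk contDiff_id)
  exact (ContDiff.comp h h1).differentiable (by simp)

theorem Sm3.dl {Φ : F3} (h : Sm3 Φ) (r y : ℝ) : Differentiable ℝ (fun l => Φ r l y) := by
  have h1 : ContDiff ℝ (⊤ : ℕ∞) (fun l : ℝ => ((r, l, y) : ℝ × ℝ × ℝ)) :=
    contDiff_const.prodMk (contDiff_id.prodMk contDiff_const)
  exact (ContDiff.comp h h1).differentiable (by simp)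

theorem Sm3.dr {Φ : F3} (h : Sm3 Φ) (l y : ℝ) : Differentiable ℝ (fun r => Φ r l y) := by
  have h1 : ContDiff ℝ (⊤ : ℕ∞) (fun r : ℝ => ((r, l, y) : ℝ × ℝ × ℝ)) :=
    contDiff_id.prodMk (contDiff_const.prodMk contDiff_const)
  exact (ContDiff.comp h h1).differentiable (by simp)

theorem Sm3.add {Φ Ψ : F3} (h : Sm3 Φ) (h' : Sm3 Ψ) : Sm3 (Φ + Ψ) := ContDiff.add h h'

theorem Sm3.smul {Φ : F3} (h : Sm3 Φ) (c : ℝ) : Sm3 (c • Φ) := by
  show ContDiff ℝ (⊤ : ℕ∞) (fun p : ℝ × ℝ × ℝ => c * Φ p.1 p.2.1 p.2.2)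
  exact contDiff_const.mul h

theorem Sm3.zero : Sm3 0 := contDiff_const

theorem dY_add {Φ Ψ : F3} (h : Sm3 Φ) (h' : Sm3 Ψ) : dY (Φ + Ψ) = dY Φ + dY Ψ := by
  funext r l y
  exact deriv_fun_add (h.dy r l y) (h'.dy r l y)

theorem dY_smul (c : ℝ) (Φ : F3) : dY (c • Φ) = c • dY Φ := by
  funext r l y
  exact deriv_const_mul_field c

theorem dY_zero : dY 0 = 0 := by
  funext r l y
  exact deriv_const y 0

theorem Dop_add (α : ℝ) {Φ Ψ : F3} (h : Sm3 Φ) (h' : Sm3 Ψ) :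
    Dop α (Φ + Ψ) = Dop α Φ + Dop α Ψ := by
  funext r l y
  have h1 : deriv (fun r' => (Φ + Ψ) r' l y) r =
      deriv (fun r' => Φ r' l y) r + deriv (fun r' => Ψ r' l y) r :=
    deriv_fun_add (h.dr l y r) (h'.dr l y r)
  have h2 : deriv (fun l' => (Φ + Ψ) r l' y) l =
      deriv (fun l' => Φ r l' y) l + deriv (fun l' => Ψ r l' y) l :=
    deriv_fun_add (h.dl r y l) (h'.dl r y l)
  simp only [Pi.add_apply, Dop]
  simp only [Pi.add_apply] at h1 h2
  rw [h1, h2]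
  ring

theorem Dop_smul (α c : ℝ) (Φ : F3) : Dop α (c • Φ) = c • Dop α Φ := by
  funext r l y
  have h1 : deriv (fun r' => (c • Φ) r' l y) r = c * deriv (fun r' => Φ r' l y) r :=
    deriv_const_mul_field c
  have h2 : deriv (fun l' => (c • Φ) r l' y) l = c * deriv (fun l' => Φ r l' y) l :=
    deriv_const_mul_field c
  simp only [Pi.smul_apply, Dop, smul_eq_mul]
  simp only [Pi.smul_apply, smul_eq_mul] at h1 h2
  rw [h1, h2]
  ring

theorem Dop_zero (α : ℝ) : Dop α 0 = 0 := by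
  funext r l y
  simp [Dop]

/-! ### Span induction -/

theorem span_sm {S : Set F3} (hS : ∀ Φ ∈ S, Sm3 Φ) {Φ : F3} (h : Φ ∈ Submodule.span ℝ S) :
    Sm3 Φ := by
  induction h using Submodule.span_induction with
  | mem x hx => exact hS x hx
  | zero => exact Sm3.zero
  | add x y _ _ hx hy => exact hx.add hy
  | smul c x _ hx => exact hx.smul c

theorem span_dY {S : Set F3} (hS : ∀ Φ ∈ S, Sm3 Φ) {T : Submodule ℝ F3}
    (hT : ∀ Φ ∈ S, dY Φ ∈ T) {Φ : F3} (h : Φ ∈ Submodule.span ℝ S) : dY Φ ∈ T := by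
  induction h using Submodule.span_induction with
  | mem x hx => exact hT x hx
  | zero => rw [dY_zero]; exact T.zero_mem
  | add x y hx hy h1 h2 =>
    rw [dY_add (span_sm hS hx) (span_sm hS hy)]
    exact T.add_mem h1 h2
  | smul c x _ hx => rw [dY_smul]; exact T.smul_mem c hx

theorem span_Dop (α : ℝ) {S : Set F3} (hS : ∀ Φ ∈ S, Sm3 Φ) {T : Submodule ℝ F3}
    (hT : ∀ Φ ∈ S, Dop α Φ ∈ T) {Φ : F3} (h : Φ ∈ Submodule.span ℝ S) : Dop α Φ ∈ T := by
  induction h using Submodule.span_induction with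
  | mem x hx => exact hT x hx
  | zero => rw [Dop_zero]; exact T.zero_mem
  | add x y hx hy h1 h2 =>
    rw [Dop_add α (span_sm hS hx) (span_sm hS hy)]
    exact T.add_mem h1 h2
  | smul c x _ hx => rw [Dop_smul]; exact T.smul_mem c hx

theorem span_mul {S S' : Set F3} {T : Submodule ℝ F3}
    (hT : ∀ Φ ∈ S, ∀ Ψ ∈ S', (fun r l y => Φ r l y * Ψ r l y) ∈ T) {Φ Ψ : F3}
    (h : Φ ∈ Submodule.span ℝ S) (h' : Ψ ∈ Submodule.span ℝ S') :
    (fun r l y => Φ r l y * Ψ r l y) ∈ T := by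
  have h1 : Φ * Ψ ∈ Submodule.span ℝ S * Submodule.span ℝ S' := Submodule.mul_mem_mul h h'
  rw [Submodule.span_mul_span] at h1
  have h2 : Submodule.span ℝ (S * S') ≤ T := by
    rw [Submodule.span_le]
    rintro x ⟨a, ha, b, hb, rfl⟩
    exact hT a ha b hb
  exact h2 h1

theorem span_lin {V : Type*} [AddCommGroup V] [Module ℝ V] {S : Set V} {T : Submodule ℝ F3}
    (L : V →ₗ[ℝ] F3) (hT : ∀ Φ ∈ S, L Φ ∈ T) {Φ : V} (h : Φ ∈ Submodule.span ℝ S) :
    L Φ ∈ T := by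
  have h2 : Submodule.span ℝ S ≤ T.comap L := by
    rw [Submodule.span_le]
    exact hT
  exact h2 h

/-! ### The class `IsH` -/

theorem IsH_const (c : ℝ) : IsH (fun _ => c) := by
  refine ⟨contDiff_const, fun k => ⟨|c|, fun z => ?_⟩⟩
  rw [iteratedDeriv_const]
  split_ifs
  · exact le_rfl
  · simp

theorem IsH_deriv {h : ℝ → ℝ} (hh : IsH h) : IsH (deriv h) := by
  refine ⟨?_, fun k => ?_⟩
  · have h1 : ContDiff ℝ (((⊤ : ℕ∞) : WithTop ℕ∞) + 1) h := by simpa using hh.1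
    exact (contDiff_succ_iff_deriv.mp h1).2.2
  · obtain ⟨C, hC⟩ := hh.2 (k + 1)
    refine ⟨C, fun z => ?_⟩
    have := hC z
    rwa [iteratedDeriv_succ'] at this

theorem IsH_mul {h h' : ℝ → ℝ} (hh : IsH h) (hh' : IsH h') : IsH (fun z => h z * h' z) := by
  refine ⟨hh.1.mul hh'.1, fun k => ?_⟩
  choose C hC using hh.2
  choose C' hC' using hh'.2
  refine ⟨∑ i ∈ Finset.range (k + 1), (k.choose i : ℝ) * C i * C' (k - i), fun z => ?_⟩
  have h1 : ‖iteratedFDeriv ℝ k (fun z => h z * h' z) z‖ ≤ _ :=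
    norm_iteratedFDeriv_mul_le (n := k) hh.1 hh'.1 z (by exact_mod_cast le_top)
  rw [norm_iteratedFDeriv_eq_norm_iteratedDeriv, Real.norm_eq_abs] at h1
  refine h1.trans (Finset.sum_le_sum fun i _ => ?_)
  rw [norm_iteratedFDeriv_eq_norm_iteratedDeriv, norm_iteratedFDeriv_eq_norm_iteratedDeriv,
    Real.norm_eq_abs, Real.norm_eq_abs]
  have h2 := hC i z
  have h3 := hC' (k - i) z
  have h4 : 0 ≤ C i := (abs_nonneg _).trans h2
  gcongr

/-! ### The class `IsT` -/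

theorem poly_P (hE : S_ECL1) (p : Polynomial ℝ) : IsP (fun y => p.eval y) := by
  obtain ⟨-, -, -, -, -, -, -, -, -, -, -, hp, -⟩ := hE
  exact hp p

theorem const_P (hE : S_ECL1) (c : ℝ) : IsP (fun _ => c) := by
  have := poly_P hE (Polynomial.C c)
  simpa using this

theorem pow_P (hE : S_ECL1) (i : ℕ) : IsP (fun y => y ^ i) := by
  have := poly_P hE (Polynomial.X ^ i)
  simpa using this

theorem chi_P (hE : S_ECL1) : IsP chiM := by
  obtain ⟨-, -, -, -, hadd, -, -, hmul, -, -, -, hp, hth, -⟩ := hE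
  have h1 : IsP (fun _ : ℝ => (1 / 2 : ℝ)) := by
    have := hp (Polynomial.C (1 / 2 : ℝ))
    simpa using this
  have h2 : IsP (fun _ : ℝ => (-(1 / 2) : ℝ)) := by
    have := hp (Polynomial.C (-(1 / 2) : ℝ))
    simpa using this
  have h3 := hadd _ _ h1 (hmul _ _ h2 hth)
  have e : chiM = fun y => (1 / 2 : ℝ) + -(1 / 2) * Real.tanh (2 * y) := by
    funext y
    unfold chiM
    ring
  rw [e]
  exact h3

theorem tanh_sq (y : ℝ) : Real.tanh y ^ 2 = 1 - 1 / Real.cosh y ^ 2 := by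
  have h := Real.cosh_sq y
  have hc := Real.cosh_pos y
  rw [Real.tanh_eq_sinh_div_cosh]
  field_simp
  linarith

theorem chi_chi (y : ℝ) : chiM y * (1 - chiM y) = 1 / 4 * (1 / Real.cosh (2 * y) ^ 2) := by
  have h := tanh_sq (2 * y)
  unfold chiM
  linear_combination (-1 / 4) * h

theorem hasDerivAt_chi (y : ℝ) : HasDerivAt chiM (-(1 / Real.cosh (2 * y) ^ 2)) y := by
  have hc := (Real.cosh_pos (2 * y)).ne'
  have e : chiM = fun y => (1 - Real.sinh (2 * y) / Real.cosh (2 * y)) / 2 := by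
    funext y
    unfold chiM
    rw [Real.tanh_eq_sinh_div_cosh]
  rw [e]
  have h2 : HasDerivAt (fun y : ℝ => 2 * y) 2 y := by
    simpa using (hasDerivAt_id y).const_mul (2 : ℝ)
  have hs := h2.sinh
  have hcc := h2.cosh
  have h3 := ((hs.div hcc hc).const_sub 1).div_const 2
  refine h3.congr_deriv ?_
  have h := Real.cosh_sq (2 * y)
  field_simp
  linarith

theorem IsP.cd {f : ℝ → ℝ} (h : IsP f) : ContDiff ℝ (⊤ : ℕ∞) f := h.1

/-- smoothness of functions with a tail -/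
theorem IsT_cd (hE : S_ECL1) {a : ℝ → ℝ} (ha : IsT a) : ContDiff ℝ (⊤ : ℕ∞) a := by
  obtain ⟨q, hq⟩ := ha
  have h1 : ContDiff ℝ (⊤ : ℕ∞) (fun y => q.eval y * chiM y) :=
    (poly_P hE q).1.mul (chi_P hE).1
  have h2 := hq.1.add h1
  simpa using h2

theorem IsT_of_E {a : ℝ → ℝ} (ha : IsE a) : IsT a := by
  refine ⟨0, ?_⟩
  unfold HasTail
  simpa using ha

/-- polynomial times a function with a tail -/
theorem IsT_pow (hE : S_ECL1) (i : ℕ) {a : ℝ → ℝ} (ha : IsT a) : IsT (fun y => y ^ i * a y) := by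
  obtain ⟨q, hq⟩ := ha
  refine ⟨Polynomial.X ^ i * q, ?_⟩
  unfold HasTail at hq ⊢
  have hp := pow_P hE i
  obtain ⟨-, -, -, -, -, hmul, -⟩ := hE
  have h1 := hmul _ _ hp hq
  have e : (fun y => y ^ i * a y - (Polynomial.X ^ i * q).eval y * chiM y) =
      fun y => y ^ i * (a y - q.eval y * chiM y) := by
    funext y
    simp
    ring
  rw [e]
  exact h1

theorem IsT_deriv (hE : S_ECL1) {a : ℝ → ℝ} (ha : IsT a) : IsT (deriv a) := by
  have hcd := IsT_cd hE ha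
  obtain ⟨q, hq⟩ := ha
  refine ⟨Polynomial.derivative q, ?_⟩
  unfold HasTail at hq ⊢
  have hp := poly_P hE (-q)
  obtain ⟨-, -, haE, -, -, hmul, -, -, hd, -, -, -, -, hs, -⟩ := hE
  have h1 := hd _ hq
  have h2 := hmul _ _ hp hs
  have e : (fun y => deriv a y - (Polynomial.derivative q).eval y * chiM y) =
      fun y => deriv (fun y => a y - q.eval y * chiM y) y +
        -(q.eval y * (1 / Real.cosh (2 * y) ^ 2)) := by
    funext y
    have hda : HasDerivAt a (deriv a y) y := (hcd.differentiable (by simp) y).hasDerivAt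
    have h3 := hda.sub ((q.hasDerivAt y).mul (hasDerivAt_chi y))
    have h4 : deriv (fun y => a y - q.eval y * chiM y) y = _ := h3.deriv
    rw [h4]
    ring
  rw [e]
  have h5 : IsE (fun y => -(q.eval y * (1 / Real.cosh (2 * y) ^ 2))) := by
    have e2 : (fun y => -(q.eval y * (1 / Real.cosh (2 * y) ^ 2))) =
        fun y => (-q).eval y * (1 / Real.cosh (2 * y) ^ 2) := by
      funext y
      rw [Polynomial.eval_neg, neg_mul]
    rw [e2]
    exact h2
  exact haE _ _ h1 h5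

theorem IsT_mul (hE : S_ECL1) {a b : ℝ → ℝ} (ha : IsT a) (hb : IsT b) :
    IsT (fun y => a y * b y) := by
  obtain ⟨q, hq⟩ := ha
  obtain ⟨p, hp⟩ := hb
  refine ⟨q * p, ?_⟩
  unfold HasTail at hq hp ⊢
  have hχ := chi_P hE
  have hqP := poly_P hE q
  have hpP := poly_P hE p
  have hqp := poly_P hE (Polynomial.C (-(1 / 4)) * (q * p))
  obtain ⟨hEW, hWP, haE, -, -, hmul, -, hPP, -, -, -, -, -, hs, -⟩ := hE
  have h1 := hmul _ _ (hPP _ _ hqP hχ) hp
  have h2 := hmul _ _ (hPP _ _ hpP hχ) hq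
  have h3 := hmul _ _ (hWP _ (hEW _ hq)) hp
  have h4 := hmul _ _ hqp hs
  have h5 := haE _ _ (haE _ _ h1 h2) (haE _ _ h3 h4)
  have e : (fun y => a y * b y - (q * p).eval y * chiM y) = fun y =>
      q.eval y * chiM y * (b y - p.eval y * chiM y) + p.eval y * chiM y * (a y - q.eval y * chiM y)
        + ((a y - q.eval y * chiM y) * (b y - p.eval y * chiM y) +
          (Polynomial.C (-(1 / 4)) * (q * p)).eval y * (1 / Real.cosh (2 * y) ^ 2)) := by
    funext y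
    have h := chi_chi y
    simp only [Polynomial.eval_mul, Polynomial.eval_C]
    linear_combination (-(q.eval y * p.eval y)) * h
  rw [e]
  exact h5

theorem IsT_Q (hQ : S_QF) : IsT Q := by
  obtain ⟨h1, -, -, -, -, -, h2, -⟩ := hQ
  refine IsT_of_E ⟨h1, fun k μ hμ => ?_⟩
  obtain ⟨C, hC⟩ := h2 k
  refine ⟨C, fun y => (hC y).trans ?_⟩
  have h3 := hC 0
  have h4 : 0 ≤ C := by
    have := (abs_nonneg _).trans h3
    simpa using this
  have h5 : Real.exp (-|y|) ≤ Real.exp (-(μ * |y|)) := by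
    apply Real.exp_le_exp.mpr
    have := abs_nonneg y
    nlinarith
  exact mul_le_mul_of_nonneg_left h5 h4

/-! ### Generators -/

theorem mono_sm {k n : ℕ} {a h : ℝ → ℝ} (ha : ContDiff ℝ (⊤ : ℕ∞) a)
    (hh : ContDiff ℝ (⊤ : ℕ∞) h) : Sm3 (mono k n a h) := by
  unfold Sm3 mono
  have h1 : ContDiff ℝ (⊤ : ℕ∞) (fun p : ℝ × ℝ × ℝ => p.1) := contDiff_fst
  have h2 : ContDiff ℝ (⊤ : ℕ∞) (fun p : ℝ × ℝ × ℝ => p.2.1) := contDiff_fst.comp contDiff_snd
  have h3 : ContDiff ℝ (⊤ : ℕ∞) (fun p : ℝ × ℝ × ℝ => p.2.2) := contDiff_snd.comp contDiff_snd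
  exact (((h1.pow k).mul (h2.pow n)).mul (ha.comp h3)).mul (hh.comp (h1.mul h3))

theorem mono_dY {k n : ℕ} {a h : ℝ → ℝ} (ha : ContDiff ℝ (⊤ : ℕ∞) a)
    (hh : ContDiff ℝ (⊤ : ℕ∞) h) :
    dY (mono k n a h) = mono k n (deriv a) h + mono (k + 1) n a (deriv h) := by
  funext r l y
  have h1 : HasDerivAt a (deriv a y) y := (ha.differentiable (by simp) y).hasDerivAt
  have h2 : HasDerivAt h (deriv h (r * y)) (r * y) :=
    (hh.differentiable (by simp) _).hasDerivAt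
  have h3 : HasDerivAt (fun y => r * y) r y := by simpa using (hasDerivAt_id y).const_mul r
  have h4 : HasDerivAt (fun y => h (r * y)) (deriv h (r * y) * r) y := h2.comp y h3
  have h5 := ((h1.const_mul (r ^ k * l ^ n)).mul h4).deriv
  have h6 : dY (mono k n a h) r l y = deriv (fun y => r ^ k * l ^ n * a y * h (r * y)) y := rfl
  rw [h6]
  refine h5.trans ?_
  simp only [Pi.add_apply, mono]
  ring

theorem mono_Dop (α : ℝ) {k n : ℕ} {a h : ℝ → ℝ} (hh : ContDiff ℝ (⊤ : ℕ∞) h) :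
    Dop α (mono k n a h) = (2 * α * k) • mono k n a h
      + (2 * α) • mono (k + 1) n (fun y => y ^ 1 * a y) (deriv h)
      + (n : ℝ) • mono k (n - 1) a h := by
  funext r l y
  have h2 : HasDerivAt h (deriv h (r * y)) (r * y) :=
    (hh.differentiable (by simp) _).hasDerivAt
  have h3 : HasDerivAt (fun r => r * y) y r := by simpa using (hasDerivAt_id r).mul_const y
  have h4 : HasDerivAt (fun r => h (r * y)) (deriv h (r * y) * y) r := h2.comp r h3
  have h5 : HasDerivAt (fun r' => mono k n a h r' l y) _ r :=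
    ((((hasDerivAt_pow k r).mul_const (l ^ n)).mul_const (a y)).mul h4)
  have h6 : HasDerivAt (fun l' => mono k n a h r l' y) _ l :=
    ((((hasDerivAt_pow n l).const_mul (r ^ k)).mul_const (a y)).mul_const (h (r * y)))
  unfold Dop
  rw [h5.deriv, h6.deriv]
  simp only [Pi.add_apply, Pi.smul_apply, smul_eq_mul, mono]
  have hk : r * ((k : ℝ) * r ^ (k - 1)) = k * r ^ k := by
    cases k with
    | zero => simp
    | succ k =>
      simp only [Nat.add_sub_cancel]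
      ring
  linear_combination (2 * α * l ^ n * a y * h (r * y)) * hk

theorem memT {m k n : ℕ} {a h : ℝ → ℝ} (hm : m ≤ k) (ha : IsT a) (hh : IsH h) :
    mono k n a h ∈ MT m := Submodule.subset_span ⟨k, n, a, h, hm, ha, hh, rfl⟩

theorem memP {m k n i : ℕ} {h : ℝ → ℝ} (hm : m ≤ k) (hh : IsH h) :
    mono k n (fun y => y ^ i) h ∈ MP m := Submodule.subset_span ⟨k, n, i, h, hm, hh, rfl⟩

theorem genT_sm (hE : S_ECL1) (m : ℕ) : ∀ Φ ∈ {Φ : F3 | ∃ (k n : ℕ) (a h : ℝ → ℝ), m ≤ k ∧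
    IsT a ∧ IsH h ∧ Φ = mono k n a h}, Sm3 Φ := by
  rintro Φ ⟨k, n, a, h, -, ha, hh, rfl⟩
  exact mono_sm (IsT_cd hE ha) hh.1

theorem genP_sm (m : ℕ) : ∀ Φ ∈ {Φ : F3 | ∃ (k n i : ℕ) (h : ℝ → ℝ), m ≤ k ∧
    IsH h ∧ Φ = mono k n (fun y => y ^ i) h}, Sm3 Φ := by
  rintro Φ ⟨k, n, i, h, -, hh, rfl⟩
  exact mono_sm (contDiff_id.pow i) hh.1

theorem mono_mul (k n k' n' : ℕ) (a h a' h' : ℝ → ℝ) :
    (fun r l y => mono k n a h r l y * mono k' n' a' h' r l y) =
      mono (k + k') (n + n') (fun y => a y * a' y) (fun z => h z * h' z) := by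
  funext r l y
  simp only [mono]
  ring

theorem mono_deriv_pow (k n i : ℕ) (h : ℝ → ℝ) :
    mono k n (deriv fun y => y ^ i) h = (i : ℝ) • mono k n (fun y => y ^ (i - 1)) h := by
  funext r l y
  simp only [mono, Pi.smul_apply, smul_eq_mul, deriv_pow_field]
  ring

/-- Multiplication by `r`. -/
def mr : F3 →ₗ[ℝ] F3 := LinearMap.mulLeft ℝ (fun r _ _ => r : F3)

/-- Multiplication by `y`. -/
def my : F3 →ₗ[ℝ] F3 := LinearMap.mulLeft ℝ (fun _ _ y => y : F3)

/-- `lif m` as a linear map. -/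
def lifL (m : ℕ) : (ℝ → ℝ → ℝ) →ₗ[ℝ] F3 where
  toFun := lif m
  map_add' e e' := by
    funext r l y
    simp only [lif, Pi.add_apply]
    ring
  map_smul' c e := by
    funext r l y
    simp only [lif, Pi.smul_apply, smul_eq_mul, RingHom.id_apply]
    ring

theorem mr_mono (k n : ℕ) (a h : ℝ → ℝ) : mr (mono k n a h) = mono (k + 1) n a h := by
  funext r l y
  show r * mono k n a h r l y = _
  simp only [mono]
  ring

theorem my_mono (k n : ℕ) (a h : ℝ → ℝ) :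
    my (mono k n a h) = mono k n (fun y => y ^ 1 * a y) h := by
  funext r l y
  show y * mono k n a h r l y = _
  simp only [mono]
  ring

/-- **MCL1.** -/
theorem thm_MCL1 (hQ : S_QF) (hE : S_ECL1) : S_MCL1 := by
  have hT : ∀ {i : ℕ} {a : ℝ → ℝ}, IsT a → IsT (fun y => y ^ i * a y) :=
    fun {i a} ha => IsT_pow hE i ha
  refine ⟨?_, ?_, ?_, ?_, ?_, ?_, ?_, ?_, ?_, ?_, ?_, ?_, ?_, ?_, ?_, ?_, ?_, ?_⟩
  · intro m m' hm
    refine Submodule.span_mono ?_
    rintro Φ ⟨k, n, a, h, hk, ha, hh, rfl⟩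
    exact ⟨k, n, a, h, hm.trans hk, ha, hh, rfl⟩
  · intro m m' hm
    refine Submodule.span_mono ?_
    rintro Φ ⟨k, n, i, h, hk, hh, rfl⟩
    exact ⟨k, n, i, h, hm.trans hk, hh, rfl⟩
  · intro m m' Φ Ψ hΦ hΨ
    refine span_mul ?_ hΦ hΨ
    rintro Φ ⟨k, n, a, h, hk, ha, hh, rfl⟩ Ψ ⟨k', n', a', h', hk', ha', hh', rfl⟩
    rw [mono_mul]
    exact memT (add_le_add hk hk') (IsT_mul hE ha ha') (IsH_mul hh hh')
  · intro m m' Φ Ψ hΦ hΨ
    refine span_mul ?_ hΦ hΨ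
    rintro Φ ⟨k, n, i, h, hk, hh, rfl⟩ Ψ ⟨k', n', a', h', hk', ha', hh', rfl⟩
    rw [mono_mul]
    exact memT (add_le_add hk hk') (hT ha') (IsH_mul hh hh')
  · intro m m' Φ Ψ hΦ hΨ
    refine span_mul ?_ hΦ hΨ
    rintro Φ ⟨k, n, i, h, hk, hh, rfl⟩ Ψ ⟨k', n', i', h', hk', hh', rfl⟩
    rw [mono_mul]
    simp only [← pow_add]
    exact memP (add_le_add hk hk') (IsH_mul hh hh')
  · intro m Φ hΦ
    refine span_dY (genT_sm hE m) ?_ hΦ
    rintro Φ ⟨k, n, a, h, hk, ha, hh, rfl⟩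
    rw [mono_dY (IsT_cd hE ha) hh.1]
    exact (MT m).add_mem (memT hk (IsT_deriv hE ha) hh) (memT (by omega) ha (IsH_deriv hh))
  · intro m Φ hΦ
    refine span_dY (genP_sm m) ?_ hΦ
    rintro Φ ⟨k, n, i, h, hk, hh, rfl⟩
    have hpow : ContDiff ℝ (⊤ : ℕ∞) (fun y : ℝ => y ^ i) := contDiff_id.pow i
    rw [mono_dY hpow hh.1, mono_deriv_pow]
    exact (MP m).add_mem ((MP m).smul_mem _ (memP hk hh)) (memP (by omega) (IsH_deriv hh))
  · intro α m Φ hΦ
    refine span_Dop α (genT_sm hE m) ?_ hΦ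
    rintro Φ ⟨k, n, a, h, hk, ha, hh, rfl⟩
    rw [mono_Dop α hh.1]
    exact (MT m).add_mem ((MT m).add_mem ((MT m).smul_mem _ (memT hk ha hh))
      ((MT m).smul_mem _ (memT (by omega) (hT ha) (IsH_deriv hh))))
      ((MT m).smul_mem _ (memT hk ha hh))
  · intro α m Φ hΦ
    refine span_Dop α (genP_sm m) ?_ hΦ
    rintro Φ ⟨k, n, i, h, hk, hh, rfl⟩
    rw [mono_Dop α hh.1]
    simp only [← pow_add]
    exact (MP m).add_mem ((MP m).add_mem ((MP m).smul_mem _ (memP hk hh))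
      ((MP m).smul_mem _ (memP (by omega) (IsH_deriv hh))))
      ((MP m).smul_mem _ (memP hk hh))
  · intro m Φ hΦ
    refine span_lin mr ?_ hΦ
    rintro Φ ⟨k, n, a, h, hk, ha, hh, rfl⟩
    rw [mr_mono]
    exact memT (by omega) ha hh
  · intro m Φ hΦ
    refine span_lin mr ?_ hΦ
    rintro Φ ⟨k, n, i, h, hk, hh, rfl⟩
    rw [mr_mono]
    exact memP (by omega) hh
  · intro m Φ hΦ
    refine span_lin my ?_ hΦ
    rintro Φ ⟨k, n, a, h, hk, ha, hh, rfl⟩
    rw [my_mono]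
    exact memT hk (hT ha) hh
  · intro m Φ hΦ
    refine span_lin my ?_ hΦ
    rintro Φ ⟨k, n, i, h, hk, hh, rfl⟩
    rw [my_mono]
    simp only [← pow_add]
    exact memP hk hh
  · intro m e he
    refine span_lin (lifL m) ?_ he
    rintro Φ ⟨n, a, ha, rfl⟩
    have e1 : lifL m (fun l y => l ^ n * a y) = mono m n a (fun _ => 1) := by
      funext r l y
      show r ^ m * (l ^ n * a y) = _
      simp only [mono]
      ring
    rw [e1]
    exact memT le_rfl ha (IsH_const 1)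
  · intro m e he
    refine span_lin (lifL m) ?_ he
    rintro Φ ⟨n, i, rfl⟩
    have e1 : lifL m (fun l y => l ^ n * y ^ i) = mono m n (fun y => y ^ i) (fun _ => 1) := by
      funext r l y
      show r ^ m * (l ^ n * y ^ i) = _
      simp only [mono]
      ring
    rw [e1]
    exact memP le_rfl (IsH_const 1)
  · have e1 : (fun _ _ y => Q y : F3) = mono 0 0 Q (fun _ => 1) := by
      funext r l y
      simp only [mono]
      ring
    rw [e1]
    exact memT le_rfl (IsT_Q hQ) (IsH_const 1)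
  · intro Φ hΦ
    exact span_sm (genT_sm hE 0) hΦ
  · intro Φ hΦ
    exact span_sm (genP_sm 0) hΦ

end Pool.Agent.Helper93.KV.MCL1
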