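import Pool.Agent.Helper41.KV.GoalsD

/-!
# Project KV, packet SMW: smoothness and support of the approximate solution
-/

set_option autoImplicit false

namespace Pool.Agent.Helper41.KV

open Real MeasureTheory Pool.Agent.Helper33.KV

namespace SMW

theorem cd3 (hM : S_MCL1) {Φ : F3} (h : Φ ∈ MT 0) :
    ContDiff ℝ (⊤ : ℕ∞) (fun p : ℝ × ℝ × ℝ => Φ p.1 p.2.1 p.2.2) :=
  hM.2.2.2.2.2.2.2.2.2.2.2.2.2.2.2.2.1 _ h

theorem cd3y (hM : S_MCL1) {Φ : F3} (h : Φ ∈ MT 0) : ContDiff ℝ (⊤ : ℕ∞) (fun y => Φ 0 0 y) := by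
  have h4 : ContDiff ℝ (⊤ : ℕ∞) (fun y : ℝ => ((0 : ℝ), (0 : ℝ), y)) :=
    contDiff_const.prodMk (contDiff_const.prodMk contDiff_id)
  exact (cd3 hM h).comp h4

theorem cd_of_T (hM : S_MCL1) {a : ℝ → ℝ} (ha : IsT a) : ContDiff ℝ (⊤ : ℕ∞) a := by
  have h1 : (fun (_ : ℝ) y => a y) ∈ LT := by
    refine Submodule.subset_span ⟨0, a, ha, ?_⟩
    funext l y
    simp
  have h2 := hM.2.2.2.2.2.2.2.2.2.2.2.2.2.1 0 _ h1
  have h3 := cd3y hM h2
  have h6 : a = fun y => lif 0 (fun _ y => a y) 0 0 y := by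
    funext y
    simp [lif]
  rw [h6]
  exact h3

theorem cd_Q (hM : S_MCL1) : ContDiff ℝ (⊤ : ℕ∞) (fun y => Q y) :=
  cd3y hM hM.2.2.2.2.2.2.2.2.2.2.2.2.2.2.2.1

theorem isT_of_E {a : ℝ → ℝ} (ha : IsE a) : IsT a := by
  refine ⟨0, ?_⟩
  unfold HasTail
  simpa using ha

theorem cd_wOne (hM : S_MCL1) {α : ℝ} {R P : ℝ → ℝ} (h : IsRP R P) :
    ContDiff ℝ (⊤ : ℕ∞) (fun y => wOne α R P y) := by
  have h1 := cd_of_T hM (isT_of_E h.R_E)
  have h2 := cd_of_T hM ⟨_, h.P_tail⟩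
  exact (contDiff_const.mul h1).sub (contDiff_const.mul h2)

theorem cd_chL : ContDiff ℝ (⊤ : ℕ∞) chL := by
  have : ContDiff ℝ (⊤ : ℕ∞) (fun s : ℝ => Real.smoothTransition (s + 2)) :=
    Real.smoothTransition.contDiff.comp (contDiff_id.add contDiff_const)
  exact this

theorem cd_chO : ContDiff ℝ (⊤ : ℕ∞) chO := by
  have h1 : ContDiff ℝ (⊤ : ℕ∞) (fun s : ℝ => Real.smoothTransition (2 - 2 * s)) :=
    Real.smoothTransition.contDiff.comp (contDiff_const.sub (contDiff_const.mul contDiff_id))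
  have h2 : ContDiff ℝ (⊤ : ℕ∞) (fun s : ℝ => Real.smoothTransition (2 + 2 * s)) :=
    Real.smoothTransition.contDiff.comp (contDiff_const.add (contDiff_const.mul contDiff_id))
  exact h1.mul h2

theorem chL_zero {s : ℝ} (h : s ≤ -2) : chL s = 0 :=
  Real.smoothTransition.zero_of_nonpos (by linarith)

theorem chL_one {s : ℝ} (h : -1 ≤ s) : chL s = 1 :=
  Real.smoothTransition.one_of_one_le (by linarith)

theorem chO_zero {s : ℝ} (h : s ∉ Set.Icc (-1 : ℝ) 1) : chO s = 0 := by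
  unfold chO
  by_cases h1 : 1 < s
  · rw [Real.smoothTransition.zero_of_nonpos (by linarith), zero_mul]
  · have h2 : s < -1 := by
      by_contra h3
      exact h ⟨not_lt.mp h3, not_lt.mp h1⟩
    rw [Real.smoothTransition.zero_of_nonpos (x := 2 + 2 * s) (by linarith), mul_zero]

theorem cd_t {T : ℝ} {g : ℝ → ℝ} (hg : ContDiffOn ℝ (⊤ : ℕ∞) g (Set.Ioi 0)) :
    ContDiffOn ℝ (⊤ : ℕ∞) (fun q : ℝ × ℝ => g q.1) (Set.Ioo 0 T ×ˢ Set.univ) :=
  hg.comp contDiff_fst.contDiffOn (fun _ hq => hq.1.1)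

theorem cd_FR {f0 : ℝ → ℝ} {n : ℕ} (hf : ∀ i : ℕ, ContDiffOn ℝ (⊤ : ℕ∞) ((Fs f0 n).coeff i)
    (Set.Ioi 0)) {X : ℝ × ℝ → ℝ} {q : ℝ × ℝ} (hX : ContDiffAt ℝ (⊤ : ℕ∞) X q) (h0 : 0 < X q) :
    ContDiffAt ℝ (⊤ : ℕ∞) (fun q' : ℝ × ℝ => FR f0 n q'.1 (X q')) q := by
  unfold FR
  refine ContDiffAt.sum fun i _ => ?_
  refine (contDiffAt_fst.pow i).mul ?_
  exact ((hf i).contDiffAt (Ioi_mem_nhds h0)).comp q hX

theorem FR_zero {f0 : ℝ → ℝ} {n : ℕ} {t x : ℝ} (hf : ∀ i : ℕ, (Fs f0 n).coeff i x = 0) :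
    FR f0 n t x = 0 := by
  unfold FR
  exact Finset.sum_eq_zero fun i _ => by rw [hf i, mul_zero]

theorem cd_outr {v : ℝ → ℝ → ℝ} {T α : ℝ} (hσ : ContDiffOn ℝ (⊤ : ℕ∞) (sig α) (Set.Ioi 0))
    (hlam : ContDiffOn ℝ (⊤ : ℕ∞) (lam α) (Set.Ioi 0)) (hpos : ∀ t, 0 < t → 0 < lam α t)
    (hv : ContDiffOn ℝ (⊤ : ℕ∞) (fun q : ℝ × ℝ => v q.1 q.2) (Set.Ioo 0 T ×ˢ Set.univ)) :
    ContDiffOn ℝ (⊤ : ℕ∞) (fun q : ℝ × ℝ => outr α v q.1 q.2) (Set.Ioo 0 T ×ˢ Set.univ) := by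
  have cσ := cd_t (T := T) hσ
  have cl := cd_t (T := T) hlam
  have cy : ContDiffOn ℝ (⊤ : ℕ∞) (fun q : ℝ × ℝ => q.2) (Set.Ioo 0 T ×ˢ Set.univ) :=
    contDiff_snd.contDiffOn
  have csq : ContDiffOn ℝ (⊤ : ℕ∞) (fun q : ℝ × ℝ => Real.sqrt (lam α q.1))
      (Set.Ioo 0 T ×ˢ Set.univ) := cl.sqrt fun q hq => (hpos q.1 hq.1.1).ne'
  have h4 : ContDiffOn ℝ (⊤ : ℕ∞)
      (fun q : ℝ × ℝ => (q.1, (q.2 - sig α q.1) / lam α q.1)) (Set.Ioo 0 T ×ˢ Set.univ) :=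
    contDiff_fst.contDiffOn.prodMk ((cy.sub cσ).div cl fun q hq => (hpos q.1 hq.1.1).ne')
  have h5 : ContDiffOn ℝ (⊤ : ℕ∞) (fun q : ℝ × ℝ => v q.1
      ((q.2 - sig α q.1) / lam α q.1)) (Set.Ioo 0 T ×ˢ Set.univ) :=
    hv.comp h4 (fun q hq => ⟨hq.1, Set.mem_univ _⟩)
  have h6 : ContDiffOn ℝ (⊤ : ℕ∞) (fun q : ℝ × ℝ => 1 / Real.sqrt (lam α q.1))
      (Set.Ioo 0 T ×ˢ Set.univ) :=
    contDiffOn_const.div csq fun q hq => (Real.sqrt_pos.mpr (hpos q.1 hq.1.1)).ne'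
  exact h6.mul h5

end SMW

open SMW in
/-- **SMW.** -/
theorem thm_SMW (hZ : S_FZ) (hF : S_FS) (hC : S_CURV) (hM : S_MCL1) (hV : S_VREP) : S_SMW := by
  intro α J n R P h0 h1 h2 h3 p c1 a0 ω2 ω3 e3 w hD θ hθ hθ2
  obtain ⟨T, hT, hVT⟩ := hV α J n R P h0 h1 h2 h3 p c1 a0 ω2 ω3 e3 w hD θ hθ hθ2
  have ha := hD.a_pos
  have ha1 := hD.a_lt
  obtain ⟨hcv, hσ, hlam, hρ, -, -⟩ := hC α ha ha1
  obtain ⟨hfi, -⟩ := hF α (fZero α p J) ha ha1 (hZ α p J ha ha1) n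
  have hop : IsOpen (Set.Ioo 0 T ×ˢ (Set.univ : Set ℝ)) := isOpen_Ioo.prod isOpen_univ
  have cσ := cd_t (T := T) hσ
  have cl := cd_t (T := T) hlam
  have cρ := cd_t (T := T) hρ
  have cy : ContDiffOn ℝ (⊤ : ℕ∞) (fun q : ℝ × ℝ => q.2) (Set.Ioo 0 T ×ˢ Set.univ) :=
    contDiff_snd.contDiffOn
  have cX : ContDiffOn ℝ (⊤ : ℕ∞) (fun q : ℝ × ℝ => sig α q.1 + lam α q.1 * q.2)
      (Set.Ioo 0 T ×ˢ Set.univ) := cσ.add (cl.mul cy)
  have csq : ContDiffOn ℝ (⊤ : ℕ∞) (fun q : ℝ × ℝ => Real.sqrt (lam α q.1))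
      (Set.Ioo 0 T ×ˢ Set.univ) := cl.sqrt fun q hq => (hcv q.1 hq.1.1).2.1.ne'
  have clog : ContDiffOn ℝ (⊤ : ℕ∞) (fun q : ℝ × ℝ => Real.log (sig α q.1))
      (Set.Ioo 0 T ×ˢ Set.univ) := cσ.log fun q hq => (hcv q.1 hq.1.1).1.ne'
  have cpow : ∀ s : ℝ, ContDiffOn ℝ (⊤ : ℕ∞) (fun q : ℝ × ℝ => chL (rho α q.1 ^ s * q.2))
      (Set.Ioo 0 T ×ˢ Set.univ) := by
    intro s
    have h4 : ContDiffOn ℝ (⊤ : ℕ∞) (fun q : ℝ × ℝ => rho α q.1 ^ s * q.2)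
        (Set.Ioo 0 T ×ˢ Set.univ) :=
      (cρ.rpow_const_of_ne fun q hq => (hcv q.1 hq.1.1).2.2.1.ne').mul cy
    exact cd_chL.comp_contDiffOn h4
  have cchO : ContDiffOn ℝ (⊤ : ℕ∞) (fun q : ℝ × ℝ => chO (sig α q.1 + lam α q.1 * q.2))
      (Set.Ioo 0 T ×ˢ Set.univ) := cd_chO.comp_contDiffOn cX
  have cQ : ContDiffOn ℝ (⊤ : ℕ∞) (fun q : ℝ × ℝ => Q q.2)
      (Set.Ioo 0 T ×ˢ Set.univ) := (cd_Q hM).comp_contDiffOn cy
  have cw1 : ContDiffOn ℝ (⊤ : ℕ∞) (fun q : ℝ × ℝ => wOne α R P q.2)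
      (Set.Ioo 0 T ×ˢ Set.univ) := (cd_wOne hM hD.rp).comp_contDiffOn cy
  have cw : ContDiffOn ℝ (⊤ : ℕ∞)
      (fun q : ℝ × ℝ => w (rho α q.1) (Real.log (sig α q.1)) q.2)
      (Set.Ioo 0 T ×ˢ Set.univ) := by
    have h4 := cd3 hM (hM.1 0 1 (Nat.zero_le 1) hD.wT)
    have h5 : ContDiffOn ℝ (⊤ : ℕ∞)
        (fun q : ℝ × ℝ => (rho α q.1, Real.log (sig α q.1), q.2))
        (Set.Ioo 0 T ×ˢ Set.univ) := cρ.prodMk (clog.prodMk cy)
    exact h4.comp_contDiffOn h5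
  have cF : ContDiffOn ℝ (⊤ : ℕ∞)
      (fun q : ℝ × ℝ => chL (rho α q.1 ^ θ * q.2) *
        (Real.sqrt (lam α q.1) * FR (fZero α p J) n q.1 (sig α q.1 + lam α q.1 * q.2)))
      (Set.Ioo 0 T ×ˢ Set.univ) := by
    intro q hq
    have hn := hop.mem_nhds hq
    refine ContDiffAt.contDiffWithinAt ?_
    by_cases hx : 0 < sig α q.1 + lam α q.1 * q.2
    · exact ((cpow θ).contDiffAt hn).mul ((csq.contDiffAt hn).mul
        (cd_FR (fun i => (hfi i).1) (cX.contDiffAt hn) hx))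
    · have hs : 0 < sig α q.1 := (hcv q.1 hq.1.1).1
      have h5 : ∀ᶠ q' in nhds q, sig α q'.1 + lam α q'.1 * q'.2 < sig α q'.1 / 2 := by
        have h6 : ContinuousAt (fun q' : ℝ × ℝ => sig α q'.1 + lam α q'.1 * q'.2) q :=
          (cX.contDiffAt hn).continuousAt
        have h7 : ContinuousAt (fun q' : ℝ × ℝ => sig α q'.1 / 2) q :=
          ((cσ.contDiffAt hn).continuousAt).div_const 2
        refine h6.eventually_lt h7 ?_
        linarith [not_lt.mp hx]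
      have h8 : (fun q : ℝ × ℝ => chL (rho α q.1 ^ θ * q.2) *
        (Real.sqrt (lam α q.1) * FR (fZero α p J) n q.1 (sig α q.1 + lam α q.1 * q.2)))
          =ᶠ[nhds q] fun _ => 0 := by
        filter_upwards [h5, hn] with q' h9 h10
        obtain ⟨h11, h12, -, -⟩ := hVT q'.1 h10.1.1 h10.1.2.le
        obtain ⟨hs', hl', hr', hlr, -⟩ := hcv q'.1 h10.1.1
        have h13 : rho α q'.1 ^ θ * rho α q'.1 ^ (1 - θ) = rho α q'.1 := by
          rw [← Real.rpow_add hr']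
          norm_num
        have h14 : rho α q'.1 * q'.2 < -(1 / 2) := by
          rw [hlr] at h9
          have h15 : sig α q'.1 * (rho α q'.1 * q'.2) < sig α q'.1 * (-(1 / 2)) := by
            nlinarith
          exact lt_of_mul_lt_mul_left h15 hs'.le
        have h16 : rho α q'.1 ^ θ * q'.2 ≤ -2 := by
          by_contra h17
          have h18 : 0 < rho α q'.1 ^ (1 - θ) := Real.rpow_pos_of_pos hr' _
          have h19 : -2 * rho α q'.1 ^ (1 - θ) < rho α q'.1 ^ θ * q'.2 * rho α q'.1 ^ (1 - θ) :=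
            mul_lt_mul_of_pos_right (not_le.mp h17) h18
          have h20 : rho α q'.1 ^ θ * q'.2 * rho α q'.1 ^ (1 - θ) = rho α q'.1 * q'.2 := by
            calc rho α q'.1 ^ θ * q'.2 * rho α q'.1 ^ (1 - θ)
                = rho α q'.1 ^ θ * rho α q'.1 ^ (1 - θ) * q'.2 := by ring
              _ = rho α q'.1 * q'.2 := by rw [h13]
          linarith
        show chL (rho α q'.1 ^ θ * q'.2) * _ = 0
        rw [chL_zero h16, zero_mul]
      exact contDiffAt_const.congr_of_eventuallyEq h8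
  have cv : ContDiffOn ℝ (⊤ : ℕ∞)
      (fun q : ℝ × ℝ => vin α θ R P w (fZero α p J) n q.1 q.2)
      (Set.Ioo 0 T ×ˢ Set.univ) := by
    refine ((cchO.mul (cQ.add ((cpow θ).mul cw))).add cF).add ?_
    exact ((cpow (1 / 2)).sub (cpow θ)).mul (cρ.mul (contDiffOn_const.add cw1))
  refine ⟨T, hT, ?_, cv, ?_⟩
  · exact cd_outr hσ hlam (fun t ht => (hcv t ht).2.1) cv
  · intro t ht x hx
    obtain ⟨hs4, hr4, -, -⟩ := hVT t ht.1 ht.2.le
    obtain ⟨hs, hl, hr, hlr, -⟩ := hcv t ht.1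
    have hxy : sig α t + lam α t * ((x - sig α t) / lam α t) = x := by
      field_simp
      ring
    have hr1 : rho α t ≤ 1 := by
      unfold rho
      exact Real.rpow_le_one hs.le (by linarith) (by linarith)
    have hFR : FR (fZero α p J) n t x = 0 := by
      refine FR_zero fun i => ?_
      by_cases h1 : x ≤ 0
      · exact (hfi i).2.1 x h1
      · refine (hfi i).2.2.1 x ?_
        by_contra h2
        exact hx ⟨by linarith [not_le.mp h1], (not_le.mp h2).le⟩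
    have hdiff : ∀ s : ℝ, 0 < s → s ≤ 1 →
        chL (rho α t ^ s * ((x - sig α t) / lam α t)) = if 1 < x then 1 else 0 := by
      intro s hs0 hs1
      have hp : 0 < rho α t ^ s := Real.rpow_pos_of_pos hr _
      by_cases h1 : 1 < x
      · rw [if_pos h1]
        refine chL_one ?_
        have : 0 ≤ rho α t ^ s * ((x - sig α t) / lam α t) :=
          mul_nonneg hp.le (div_nonneg (by linarith) hl.le)
        linarith
      · rw [if_neg h1]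
        refine chL_zero ?_
        have h2 : x < -1 := by
          by_contra h3
          exact hx ⟨not_lt.mp h3, not_lt.mp h1⟩
        have h3 : rho α t ≤ rho α t ^ s := by
          conv_lhs => rw [← Real.rpow_one (rho α t)]
          exact Real.rpow_le_rpow_of_exponent_ge hr hr1 hs1
        have h4 : (x - sig α t) / lam α t ≤ 0 := div_nonpos_of_nonpos_of_nonneg (by linarith) hl.le
        have h5 : rho α t ^ s * ((x - sig α t) / lam α t) ≤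
            rho α t * ((x - sig α t) / lam α t) := mul_le_mul_of_nonpos_right h3 h4
        have h6 : rho α t * ((x - sig α t) / lam α t) = (x - sig α t) / sig α t := by
          rw [hlr]
          field_simp
        have h7 : (x - sig α t) / sig α t ≤ -2 := by
          rw [div_le_iff₀ hs]
          linarith
        linarith
    show (1 / Real.sqrt (lam α t)) *
      vin α θ R P w (fZero α p J) n t ((x - sig α t) / lam α t) = 0
    unfold vin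
    rw [hxy, chO_zero hx, hFR, hdiff θ hθ (by linarith), hdiff (1 / 2) (by norm_num) (by norm_num)]
    ring

end Pool.Agent.Helper41.KV
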